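import Pool.Agent.Work.MP_159c4a_co.Coset

/-!
If an abstract polytope has a unique minimal regular polytopal cover, then its monodromy group
is a string C-group. For a finite polytope it is enough that the cover is least among the finite
regular covers.
-/

namespace Pool.Agent.Results.MP_159c4a_co.NoLeastFiniteCover

open Pool.Agent.Work.MP_159c4a_co

universe u

lemma exists_cover' {n : ℕ} {G : Type u} [Group G] {r : Fin n → G} (hr : Str r) (hS : Sep r 0)
    {m : ℕ} (hm : 2 ≤ m) (j : ℕ) : ∃ (S : Type u) (_ : Group S) (s : Fin n → S) (π : S →* G),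
      Str s ∧ IP s j ∧ Sep s j ∧ (∀ i, π (s i) = r i) ∧ (∀ x, π x = 1 → x ^ m ^ j = 1) ∧
        (Finite G → Finite S) := by
  induction j with
  | zero =>
    refine ⟨G, inferInstance, r, MonoidHom.id G, hr, ?_, hS, fun _ => rfl,
      fun x hx => by simpa using hx, id⟩
    intro k j' hj x _ h2
    rw [Gen.eq_one (fun i _ h => by omega) h2]; exact one_mem _
  | succ j ih =>
    obtain ⟨S, _, s, π, h1, h2, h3, h4, h5, h6⟩ := ih
    refine ⟨Extn S (edge s j) m, inferInstance, lft s j m, π.comp Extn.proj, str_lft h1,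
      ip_lft hm h1 h2 h3, sep_lft h3, h4, fun x hx => ?_, fun hG => ?_⟩
    · rw [pow_succ, pow_mul]
      refine Extn.pow_eq_one ?_
      have := h5 x.g hx
      change Extn.proj (x ^ m ^ j) = 1
      rw [map_pow]; exact this
    · have := h6 hG
      have : NeZero m := ⟨by omega⟩
      exact Finite.of_injective (fun x : Extn S (edge s j) m => (x.a, x.g))
        fun x y h => Extn.ext (congrArg Prod.fst h) (congrArg Prod.snd h)

lemma exists_regular_cover {n : ℕ} (P : Polytope.{u} n) {m : ℕ} (hm : 2 ≤ m) :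
    ∃ S : Polytope.{u} n, S.Regular ∧ S.Covers P ∧ (Finite P.Face → Finite S.Face) ∧
      ∀ w : FreeGroup (Fin n),
      FreeGroup.lift P.monGen w = 1 → FreeGroup.lift S.monGen (w ^ m ^ n) = 1 := by
  have hstr : Str P.monGen := ⟨Polytope.monGen_sq, fun _ _ h => Polytope.monGen_comm h⟩
  have hsep : Sep P.monGen 0 := fun j _ x h1 h2 =>
    Polytope.closure_disjoint (Set.disjoint_left.2 fun i a b => by
      simp only [Set.mem_ofPred_eq] at a b; omega) h1 h2
  obtain ⟨S, _, s, π, h1, h2, -, h4, h5, h6⟩ := exists_cover' hstr hsep hm n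
  let K : Subgroup S := Gen s fun _ => True
  let s' : Fin n → K := fun i => ⟨s i, Gen.mem trivial⟩
  have hG : ∀ (p : ℕ → Prop) (x : K), x ∈ Gen s' p ↔ (x : S) ∈ Gen s p := by
    intro p x
    have : (Gen s' p).map K.subtype = Gen s p := by
      rw [Gen, MonoidHom.map_closure, ← Set.image_comp]; rfl
    rw [← this, ← Subgroup.mem_map_iff_mem K.subtype_injective]; rfl
  have hs : CG s' :=
    { str := ⟨fun i => Subtype.ext (h1.sq i), fun i j h => Subtype.ext (h1.comm i j h)⟩
      ip := fun k j hj x a b => (hG _ x).2 (h2 k j hj x ((hG _ x).1 a) ((hG _ x).1 b))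
      ne := fun i h => Polytope.monGen_ne_one (P := P) i (by
        rw [← h4 i, show s i = 1 from congrArg Subtype.val h, map_one])
      top := fun g => (hG _ g).2 g.2 }
  refine ⟨cosetPolytope hs, coset_regular hs, coset_covers hs P (π.comp K.subtype) h4,
    fun hP => ?_, fun w hw => coset_word hs _ ?_⟩
  · have : Finite (Flag P.Face) := Finite.of_injective _ (SetLike.coe_injective (A := Flag P.Face))
    have := h6 inferInstance
    exact Quotient.finite (cosetSetoid s')
  have e : (π.comp K.subtype).comp (FreeGroup.lift s') = FreeGroup.lift P.monGen :=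
    FreeGroup.ext_hom _ _ fun i => by simpa using h4 i
  rw [map_pow]
  refine Subtype.ext ?_
  rw [← e] at hw
  simpa using h5 _ hw

theorem result {n : ℕ} (P R : Polytope.{u} n) (hR : R.Regular) (hRP : R.Covers P)
    (hmin : ∀ S : Polytope.{u} n, S.Regular → S.Covers P → (Finite P.Face → Finite S.Face) →
      S.Covers R) :
    IsStringCGroup P.monGen := by
  have hker : ∀ w : FreeGroup (Fin n), FreeGroup.lift P.monGen w = 1 →
      FreeGroup.lift R.monGen w = 1 := by
    intro w hw
    obtain ⟨S, a1, a2, a4, a3⟩ := exists_regular_cover P (m := 2) le_rfl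
    obtain ⟨T, b1, b2, b4, b3⟩ := exists_regular_cover P (m := 3) (by norm_num)
    have c1 := (hmin S a1 a2 a4).word _ (a3 w hw)
    have c2 := (hmin T b1 b2 b4).word _ (b3 w hw)
    rw [map_pow] at c1 c2
    have := pow_gcd_eq_one.2 ⟨c1, c2⟩
    rwa [Nat.Coprime.gcd_eq_one (Nat.Coprime.pow n n (by norm_num)), pow_one] at this
  have hmap : ∀ (Q : Polytope.{u} n) (I : Set (Fin n)),
      (Subgroup.closure (FreeGroup.of '' I)).map (FreeGroup.lift Q.monGen) =
        Subgroup.closure (Q.monGen '' I) := by
    intro Q I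
    rw [MonoidHom.map_closure, ← Set.image_comp]
    congr 2
  refine ⟨fun i => ?_, fun _ _ h => Polytope.monGen_comm h, fun I J => le_antisymm ?_ ?_⟩
  · exact orderOf_eq_prime (by rw [pow_two]; exact Polytope.monGen_sq i)
      (Polytope.monGen_ne_one i)
  · rintro x ⟨h1, h2⟩
    rw [← hmap] at h1 h2 ⊢
    obtain ⟨a, ha, rfl⟩ := h1
    obtain ⟨b, hb, e⟩ := h2
    have e' : FreeGroup.lift R.monGen b = FreeGroup.lift R.monGen a := by
      have := hker (a⁻¹ * b) (by rw [map_mul, map_inv, e, inv_mul_cancel])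
      rw [map_mul, map_inv, inv_mul_eq_one] at this
      exact this.symm
    have m1 : FreeGroup.lift R.monGen a ∈ Subgroup.closure (R.monGen '' I) :=
      hmap R I ▸ Subgroup.mem_map_of_mem _ ha
    have m2 : FreeGroup.lift R.monGen a ∈ Subgroup.closure (R.monGen '' J) :=
      e' ▸ hmap R J ▸ Subgroup.mem_map_of_mem _ hb
    have m3 := hR.inter I J m1 m2
    rw [← hmap] at m3
    obtain ⟨c, hc, e2⟩ := m3
    refine ⟨c, hc, ?_⟩
    have := hRP.word (a⁻¹ * c) (by rw [map_mul, map_inv, e2, inv_mul_cancel])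
    rw [map_mul, map_inv, inv_mul_eq_one] at this
    exact this.symm
  · exact le_inf (Subgroup.closure_mono (Set.image_mono Set.inter_subset_left))
      (Subgroup.closure_mono (Set.image_mono Set.inter_subset_right))

end Pool.Agent.Results.MP_159c4a_co.NoLeastFiniteCover
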